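import Pool.Agent.Helper77.CR.BASE

/-!
# CR: the converse, and splitting of patterns
-/

namespace Pool.Agent.Helper77.CR

open Pool.Agent.Helper9.FA (Item Cor Ang wfP labels)
open Pool.Agent.Helper9.TW (Lab Conn)
open Pool.Agent.Helper28.TX (PV Pot)

variable {α : Type}

theorem pair_cup_inv {K : Type} {P : List (Item α)} {k : ℕ} {c0 c1 : K} {c : List K}
    {θ : List (PV K)} {e : List (Bool × K × K)} (h : Pot c0 c1 (.cup k :: P) c θ e) :
    ∃ (l r : List K) (a m : K) (e' : List (Bool × K × K)), l.length = k ∧ c = l ++ a :: r ∧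
      e = (true, a, m) :: e' ∧ Pot c0 c1 P (l ++ a :: m :: a :: r) θ e' := by
  generalize hQ : (Item.cup k :: P : List (Item α)) = Q at h
  cases h with
  | nil => cases hQ
  | cup h =>
    injection hQ with h1 h2
    injection h1 with h1
    subst h2
    exact ⟨_, _, _, _, _, h1.symm, rfl, rfl, h⟩
  | cap h => injection hQ with h1 h2; cases h1
  | box h => injection hQ with h1 h2; cases h1

theorem pair_cap_inv {K : Type} {P : List (Item α)} {k : ℕ} {c0 c1 : K} {c : List K}
    {θ : List (PV K)} {e : List (Bool × K × K)} (h : Pot c0 c1 (.cap k :: P) c θ e) :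
    ∃ (l r : List K) (a m : K) (e' : List (Bool × K × K)), l.length = k ∧
      c = l ++ a :: m :: a :: r ∧ e = (false, a, m) :: e' ∧ Pot c0 c1 P (l ++ a :: r) θ e' := by
  generalize hQ : (Item.cap k :: P : List (Item α)) = Q at h
  cases h with
  | nil => cases hQ
  | cup h => injection hQ with h1 h2; cases h1
  | cap h =>
    injection hQ with h1 h2
    injection h1 with h1
    subst h2
    exact ⟨_, _, _, _, _, h1.symm, rfl, rfl, h⟩
  | box h => injection hQ with h1 h2; cases h1

theorem pair_box_inv {K : Type} {P : List (Item α)} {k : ℕ} {x : α} {c0 c1 : K} {c : List K}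
    {θ : List (PV K)} {e : List (Bool × K × K)} (h : Pot c0 c1 (.box k x :: P) c θ e) :
    ∃ (l r : List K) (q : PV K) (θ' : List (PV K)), l.length = k ∧
      c = l ++ q.L :: q.B :: q.R :: r ∧ θ = q :: θ' ∧
      Pot c0 c1 P (l ++ q.L :: q.T :: q.R :: r) θ' e := by
  generalize hQ : (Item.box k x :: P : List (Item α)) = Q at h
  cases h with
  | nil => cases hQ
  | cup h => injection hQ with h1 h2; cases h1
  | cap h => injection hQ with h1 h2; cases h1
  | box h =>
    injection hQ with h1 h2
    injection h1 with h1 h3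
    subst h2
    exact ⟨_, _, _, _, h1.symm, rfl, rfl, h⟩

theorem pair_nil_inv {K : Type} {c0 c1 : K} {c : List K}
    {θ : List (PV K)} {e : List (Bool × K × K)} (h : Pot c0 c1 ([] : List (Item α)) c θ e) :
    c = [c0, c1] ∧ θ = [] ∧ e = [] := by
  cases h
  exact ⟨rfl, rfl, rfl⟩

theorem pair_val_cup (θ : List (PV ℝ)) (e : List (Bool × ℝ × ℝ)) (us : List (Cor ℝ)) (a m : ℝ) :
    val θ ((true, a, m) :: e) us = val θ e us - Real.pi * m := by
  unfold val
  simp only [List.map_cons, List.sum_cons, if_true]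
  ring

theorem pair_val_cap (θ : List (PV ℝ)) (e : List (Bool × ℝ × ℝ)) (us : List (Cor ℝ)) (a m : ℝ) :
    val θ ((false, a, m) :: e) us = val θ e us + Real.pi * a := by
  unfold val
  simp only [List.map_cons, List.sum_cons, Bool.false_eq_true, if_false]
  ring

theorem pair_val_box (q : PV ℝ) (θ : List (PV ℝ)) (e : List (Bool × ℝ × ℝ)) (u : Cor ℝ)
    (us : List (Cor ℝ)) :
    val (q :: θ) e (u :: us) = val θ e us +
      (q.L * u.uL + q.B * u.uB + q.R * u.uR + q.T * u.uT) - Real.pi * q.T := by
  unfold val wsumA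
  simp only [List.map_cons, List.sum_cons, List.zipWith_cons_cons]
  ring

theorem pair_zip (l l' c d : List ℝ) (h : l'.length = l.length) :
    (List.zipWith (· * ·) (l' ++ c) (l ++ d)).sum =
      (List.zipWith (· * ·) l' l).sum + (List.zipWith (· * ·) c d).sum := by
  rw [List.zipWith_append h, List.sum_append]

theorem val_of_angG {P : List (Item α)} {d : List ℝ} {us : List (Cor ℝ)}
    (h : AngG [0, 0] P d us) {c0 c1 : ℝ} {c : List ℝ} {θ : List (PV ℝ)}
    {e : List (Bool × ℝ × ℝ)} (hp : Pot c0 c1 P c θ e) :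
    (List.zipWith (· * ·) c d).sum = val θ e us := by
  induction h generalizing c θ e with
  | nil =>
    obtain ⟨rfl, rfl, rfl⟩ := pair_nil_inv hp
    simp [val, wsumA]
  | @cup P l r a b cs h ih =>
    obtain ⟨l', r', a', m, e', hl, rfl, rfl, hp'⟩ := pair_cup_inv hp
    have h1 := ih hp'
    rw [pair_zip _ _ _ _ hl] at h1 ⊢
    rw [pair_val_cup, ← h1]
    simp only [List.zipWith_cons_cons, List.sum_cons]
    ring
  | @cap P l r x a b cs h hab ih =>
    obtain ⟨l', r', a', m, e', hl, rfl, rfl, hp'⟩ := pair_cap_inv hp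
    have h1 := ih hp'
    rw [pair_zip _ _ _ _ hl] at h1 ⊢
    rw [pair_val_cap, ← h1]
    simp only [List.zipWith_cons_cons, List.sum_cons]
    linear_combination a' * hab
  | @box P l r x y e0 c0' cs h ih =>
    obtain ⟨l', r', q, θ', hl, rfl, rfl, hp'⟩ := pair_box_inv hp
    have h1 := ih hp'
    rw [pair_zip _ _ _ _ hl] at h1 ⊢
    rw [pair_val_box, ← h1]
    simp only [List.zipWith_cons_cons, List.sum_cons]
    ring

theorem angG_append {t m d : List ℝ} {Pb Q : List (Item α)} {us1 us2 : List (Cor ℝ)}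
    (h2 : AngG t Q m us2) (h1 : AngG m Pb d us1) : AngG t (Pb ++ Q) d (us1 ++ us2) := by
  induction h1 with
  | nil => exact h2
  | cup h ih => exact .cup ih
  | cap h hab ih => exact .cap ih hab
  | box h ih => exact .box ih

theorem pair_wfP_inj {P : List (Item α)} {n n' : ℕ} (h : wfP n P 1) (h' : wfP n' P 1) :
    n = n' := by
  induction P generalizing n n' with
  | nil =>
    have h1 : n = 1 := h
    have h2 : n' = 1 := h'
    omega
  | cons i P ih =>
    cases i with
    | cup k =>
      have := ih h.2 h'.2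
      omega
    | cap k =>
      have := ih h.2 h'.2
      have h3 := h.1
      have h4 := h'.1
      omega
    | box k a => exact ih h.2 h'.2

theorem pair_split {K : Type} {c : List K} {k n : ℕ} (hc : c.length = n + 1) (hk : k + 2 ≤ n) :
    ∃ (l r : List K) (x y z : K), l.length = k ∧ c = l ++ x :: y :: z :: r := by
  have h1 : c = c.take k ++ c.drop k := (List.take_append_drop k c).symm
  have h2 : (c.drop k).length = n + 1 - k := by rw [List.length_drop, hc]
  rcases h3 : c.drop k with _ | ⟨x, _ | ⟨y, _ | ⟨z, r⟩⟩⟩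
  · rw [h3] at h2; simp at h2; omega
  · rw [h3] at h2; simp at h2; omega
  · rw [h3] at h2; simp at h2; omega
  · refine ⟨c.take k, r, x, y, z, ?_, ?_⟩
    · rw [List.length_take, hc]; omega
    · rw [← h3]; exact h1

/-- a potential of the pattern gives a potential of the pattern with another vertex -/
theorem pot_insert {K : Type} {Pb Q : List (Item α)} {c0 c1 : K} {c : List K} {θ : List (PV K)}
    {e : List (Bool × K × K)} (h : Pot c0 c1 (Pb ++ Q) c θ e) {k n : ℕ} (a : α)
    (hQ : wfP n Q 1) (hk : k + 2 ≤ n) :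
    ∃ (θ1 θ2 : List (PV K)) (q : PV K), θ = θ1 ++ θ2 ∧ θ1.length = (labels Pb).length ∧ q.B = q.T ∧
      Pot c0 c1 (Pb ++ .box k a :: Q) c (θ1 ++ q :: θ2) e := by
  induction Pb generalizing c θ e with
  | nil =>
    obtain ⟨n', hn', hw⟩ := pot_wf h
    have hnn : n' = n := pair_wfP_inj hw hQ
    subst hnn
    obtain ⟨l, r, x, y, z, hl, hc⟩ := pair_split hn' hk
    subst hl
    subst hc
    refine ⟨[], θ, ⟨x, y, z, y⟩, rfl, rfl, rfl, ?_⟩
    exact Pot.box (q := ⟨x, y, z, y⟩) h
  | cons i Pb ih =>
    cases i with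
    | cup j =>
      obtain ⟨l, r, b, m, e', hl, rfl, rfl, hp'⟩ := pair_cup_inv h
      obtain ⟨θ1, θ2, q, h1, h2, h3, h4⟩ := ih hp'
      subst hl
      exact ⟨θ1, θ2, q, h1, h2, h3, .cup h4⟩
    | cap j =>
      obtain ⟨l, r, b, m, e', hl, rfl, rfl, hp'⟩ := pair_cap_inv h
      obtain ⟨θ1, θ2, q, h1, h2, h3, h4⟩ := ih hp'
      subst hl
      exact ⟨θ1, θ2, q, h1, h2, h3, .cap h4⟩
    | box j b =>
      obtain ⟨l, r, q0, θ', hl, rfl, rfl, hp'⟩ := pair_box_inv h
      obtain ⟨θ1, θ2, q, h1, h2, h3, h4⟩ := ih hp'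
      subst hl
      subst h1
      refine ⟨q0 :: θ1, θ2, q, rfl, ?_, h3, .box h4⟩
      simp only [labels, List.length_cons, h2]

/-- and conversely -/
theorem pot_remove {K : Type} {Pb Q : List (Item α)} {c0 c1 : K} {c : List K} {k : ℕ} {a : α}
    {θ1 θ2 : List (PV K)} {q : PV K} {e : List (Bool × K × K)}
    (h : Pot c0 c1 (Pb ++ .box k a :: Q) c (θ1 ++ q :: θ2) e)
    (hl : θ1.length = (labels Pb).length) (hq : q.B = q.T) : Pot c0 c1 (Pb ++ Q) c (θ1 ++ θ2) e := by
  induction Pb generalizing c θ1 e with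
  | nil =>
    have h0 : θ1 = [] := List.length_eq_zero_iff.mp hl
    subst h0
    obtain ⟨l, r, q0, θ', hl, rfl, hθ, hp'⟩ := pair_box_inv h
    injection hθ with h1 h2
    subst h1
    subst h2
    rw [hq]
    exact hp'
  | cons i Pb ih =>
    cases i with
    | cup j =>
      obtain ⟨l, r, b, m, e', hl', rfl, rfl, hp'⟩ := pair_cup_inv h
      subst hl'
      exact .cup (ih hp' hl)
    | cap j =>
      obtain ⟨l, r, b, m, e', hl', rfl, rfl, hp'⟩ := pair_cap_inv h
      subst hl'
      exact .cap (ih hp' hl)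
    | box j b =>
      obtain ⟨l, r, q0, θ', hl', rfl, hθ, hp'⟩ := pair_box_inv h
      subst hl'
      cases θ1 with
      | nil => simp [labels] at hl
      | cons q1 θ1 =>
        injection hθ with h1 h2
        subst h1
        subst h2
        refine .box (ih hp' ?_)
        simpa [labels] using hl

theorem pair_lab_remove {Pb Q : List (Item α)} {k : ℕ} {a : α} {L u : List ℝ}
    (h : Lab (Pb ++ .box k a :: Q) L u) : Lab (Pb ++ Q) L u := by
  generalize hP : Pb ++ Item.box k a :: Q = P at h
  induction h generalizing Pb with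
  | nil => simp at hP
  | @cup P L l r s h ih =>
    cases Pb with
    | nil => injection hP with h1 h2; cases h1
    | cons i Pb =>
      injection hP with h1 h2
      subst h1
      exact .cup (ih h2)
  | @cap P L l r s h ih =>
    cases Pb with
    | nil => injection hP with h1 h2; cases h1
    | cons i Pb =>
      injection hP with h1 h2
      subst h1
      exact .cap (ih h2)
  | @box P L l r s b h ih =>
    cases Pb with
    | nil =>
      injection hP with h1 h2
      subst h2
      exact h
    | cons i Pb =>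
      injection hP with h1 h2
      subst h1
      exact .box (ih h2)

theorem conn_insert {Pb Q : List (Item α)} {k : ℕ} (a : α) (h : Conn (Pb ++ Q)) :
    Conn (Pb ++ .box k a :: Q) := fun L u hL => h L u (pair_lab_remove hL)

end Pool.Agent.Helper77.CR
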