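import Pool.Agent.Helper77.CR.Defs

/-!
# CR: averages of angles
-/

namespace Pool.Agent.Helper77.CR

open Pool.Agent.Helper9.FA (Item Cor Ang wfP labels)
open Pool.Agent.Helper28.TX (PV Pot)

theorem avg_wsum (θ : List (PV ℕ)) (φ : ℕ → ℝ) (g : Fin θ.length → Cor ℝ) :
    wsumA (θ.map (PV.map φ)) (List.ofFn g) =
      ∑ j, (φ (θ.get j).L * (g j).uL + φ (θ.get j).B * (g j).uB + φ (θ.get j).R * (g j).uR +
        φ (θ.get j).T * (g j).uT) := by
  unfold wsumA
  rw [List.zipWith_map_left, ← List.sum_ofFn]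
  congr 1
  apply List.ext_getElem
  · simp
  · intro i h1 h2
    simp [PV.map]

/-- the conditions at a vertex -/
def AvgC (u : Cor ℝ) : Prop :=
  0 ≤ u.uL ∧ 0 ≤ u.uR ∧ 0 ≤ u.uB ∧ 0 ≤ u.uT ∧
    u.uL + u.uR + u.uB + u.uT = Real.pi ∧ 2 * u.uB ≤ Real.pi ∧ 2 * u.uT ≤ Real.pi

/-- the sum over a region -/
noncomputable def avgF (θ : List (PV ℕ)) (F : ℕ) (j : Fin θ.length) (u : Cor ℝ) : ℝ :=
  (if (θ.get j).L = F then (1 : ℝ) else 0) * u.uL + (if (θ.get j).B = F then (1 : ℝ) else 0) * u.uB +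
    (if (θ.get j).R = F then (1 : ℝ) else 0) * u.uR + (if (θ.get j).T = F then (1 : ℝ) else 0) * u.uT

theorem avg_FS (θ : List (PV ℕ)) (S : Finset ℕ) (g : Fin θ.length → Cor ℝ) :
    FS θ S (List.ofFn g) ↔ (∀ j, AvgC (g j)) ∧
      ∀ F, ∑ j, avgF θ F j (g j) = if F ∈ S then Real.pi else 0 := by
  constructor
  · intro h
    refine ⟨fun j => h.nn _ (by simp), fun F => ?_⟩
    have h1 := h.face F
    rw [fsum, avg_wsum] at h1
    exact h1
  · rintro ⟨h1, h2⟩
    refine ⟨by simp, ?_, fun F => ?_⟩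
    · intro u hu
      rw [List.mem_ofFn] at hu
      obtain ⟨j, rfl⟩ := hu
      exact h1 j
    · rw [fsum, avg_wsum]
      exact h2 F

theorem avg_exists_ofFn {θ : List (PV ℕ)} {us : List (Cor ℝ)} (h : us.length = θ.length) :
    ∃ g : Fin θ.length → Cor ℝ, us = List.ofFn g := by
  refine ⟨fun j => us[j.1]'(by rw [h]; exact j.2), ?_⟩
  apply List.ext_getElem
  · simp [h]
  · intro i h1 h2
    simp

theorem avg_angles {θ : List (PV ℕ)} {S : Finset ℕ}
    (h : ∀ i < θ.length, (∃ us u, FS θ S us ∧ us[i]? = some u ∧ u.uB = 0) ∧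
    (∃ us u, FS θ S us ∧ us[i]? = some u ∧ u.uT = 0) ∧
    (∃ us u, FS θ S us ∧ us[i]? = some u ∧ 2 * u.uL ≤ Real.pi) ∧
    (∃ us u, FS θ S us ∧ us[i]? = some u ∧ 2 * u.uR ≤ Real.pi)) (h0 : θ ≠ []) :
    ∃ us, FS θ S us ∧ ∀ u ∈ us, u.Ok ∧ u.Strict := by
  classical
  have hpi := Real.pi_pos
  -- the solutions as functions
  have key : ∀ (i : Fin θ.length) (p : Cor ℝ → Prop),
      (∃ us u, FS θ S us ∧ us[i.1]? = some u ∧ p u) →
      ∃ g : Fin θ.length → Cor ℝ, FS θ S (List.ofFn g) ∧ p (g i) := by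
    rintro i p ⟨us, u, h1, h2, h3⟩
    obtain ⟨g, rfl⟩ := avg_exists_ofFn h1.len
    refine ⟨g, h1, ?_⟩
    rw [List.getElem?_ofFn] at h2
    simp only [i.2, dif_pos, Option.some.injEq] at h2
    rw [← h2] at h3
    exact h3
  have hB : ∀ i : Fin θ.length, ∃ g : Fin θ.length → Cor ℝ, FS θ S (List.ofFn g) ∧ (g i).uB = 0 :=
    fun i => key i _ (h i.1 i.2).1
  have hT : ∀ i : Fin θ.length, ∃ g : Fin θ.length → Cor ℝ, FS θ S (List.ofFn g) ∧ (g i).uT = 0 :=
    fun i => key i _ (h i.1 i.2).2.1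
  have hL : ∀ i : Fin θ.length, ∃ g : Fin θ.length → Cor ℝ, FS θ S (List.ofFn g) ∧
      2 * (g i).uL ≤ Real.pi := fun i => key i _ (h i.1 i.2).2.2.1
  have hR : ∀ i : Fin θ.length, ∃ g : Fin θ.length → Cor ℝ, FS θ S (List.ofFn g) ∧
      2 * (g i).uR ≤ Real.pi := fun i => key i _ (h i.1 i.2).2.2.2
  choose gB hB1 hB2 using hB
  choose gT hT1 hT2 using hT
  choose gL hL1 hL2 using hL
  choose gR hR1 hR2 using hR
  have hN : 0 < θ.length := List.length_pos_iff.mpr h0
  let G : Fin θ.length × Fin 4 → Fin θ.length → Cor ℝ := fun x =>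
    if x.2 = 0 then gB x.1 else if x.2 = 1 then gT x.1 else if x.2 = 2 then gL x.1 else gR x.1
  have hG : ∀ x, FS θ S (List.ofFn (G x)) := by
    intro x
    simp only [G]
    split_ifs
    · exact hB1 _
    · exact hT1 _
    · exact hL1 _
    · exact hR1 _
  have hG1 : ∀ x j, AvgC (G x j) := fun x j => ((avg_FS θ S _).mp (hG x)).1 j
  have hG2 : ∀ x F, ∑ j, avgF θ F j (G x j) = if F ∈ S then Real.pi else 0 :=
    fun x F => ((avg_FS θ S _).mp (hG x)).2 F
  set M : ℝ := (Fintype.card (Fin θ.length × Fin 4) : ℝ) with hM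
  have hM0 : 0 < M := by
    have : Nonempty (Fin θ.length × Fin 4) := ⟨(⟨0, hN⟩, 0)⟩
    rw [hM]
    exact Nat.cast_pos.mpr Fintype.card_pos
  set w : ℝ := M⁻¹ with hw
  have hw0 : 0 < w := inv_pos.mpr hM0
  have hw1 : ∑ _x : Fin θ.length × Fin 4, w = 1 := by
    rw [Finset.sum_const, Finset.card_univ, nsmul_eq_mul, ← hM]
    exact mul_inv_cancel₀ hM0.ne'
  -- averages
  let av : (Cor ℝ → ℝ) → Fin θ.length → ℝ := fun p j => ∑ x, w * p (G x j)
  have av_le : ∀ (p : Cor ℝ → ℝ) (j : Fin θ.length) (b : ℝ), (∀ x, p (G x j) ≤ b) →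
      av p j ≤ b := by
    intro p j b hb
    calc av p j ≤ ∑ _x : Fin θ.length × Fin 4, w * b :=
          Finset.sum_le_sum fun x _ => mul_le_mul_of_nonneg_left (hb x) hw0.le
      _ = b := by rw [← Finset.sum_mul, hw1, one_mul]
  have av_lt : ∀ (p : Cor ℝ → ℝ) (j : Fin θ.length) (b : ℝ), (∀ x, p (G x j) ≤ b) →
      (∃ x, p (G x j) < b) → av p j < b := by
    rintro p j b hb ⟨x0, hx0⟩
    calc av p j < ∑ _x : Fin θ.length × Fin 4, w * b :=
          Finset.sum_lt_sum (fun x _ => mul_le_mul_of_nonneg_left (hb x) hw0.le)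
            ⟨x0, Finset.mem_univ _, mul_lt_mul_of_pos_left hx0 hw0⟩
      _ = b := by rw [← Finset.sum_mul, hw1, one_mul]
  have av_nn : ∀ (p : Cor ℝ → ℝ) (j : Fin θ.length), (∀ x, 0 ≤ p (G x j)) → 0 ≤ av p j :=
    fun p j hp => Finset.sum_nonneg fun x _ => mul_nonneg hw0.le (hp x)
  let AL := av Cor.uL
  let AR := av Cor.uR
  let AB := av Cor.uB
  let AT := av Cor.uT
  let nn : Fin θ.length → ℝ := fun j =>
    max (max (AB j) (AT j)) (min (Real.pi / 4) (Real.pi - max (AL j) (AR j)))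
  let g : Fin θ.length → Cor ℝ := fun j => ⟨nn j, AL j, AR j, AB j, AT j⟩
  have hAL : ∀ j, 0 ≤ AL j := fun j => av_nn _ _ fun x => (hG1 x j).1
  have hAR : ∀ j, 0 ≤ AR j := fun j => av_nn _ _ fun x => (hG1 x j).2.1
  have hAB : ∀ j, 0 ≤ AB j := fun j => av_nn _ _ fun x => (hG1 x j).2.2.1
  have hAT : ∀ j, 0 ≤ AT j := fun j => av_nn _ _ fun x => (hG1 x j).2.2.2.1
  have hsum : ∀ j, AL j + AR j + AB j + AT j = Real.pi := by
    intro j
    simp only [AL, AR, AB, AT, av]
    rw [← Finset.sum_add_distrib, ← Finset.sum_add_distrib, ← Finset.sum_add_distrib]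
    have : ∀ x, w * (G x j).uL + w * (G x j).uR + w * (G x j).uB + w * (G x j).uT =
        w * Real.pi := by
      intro x
      rw [← (hG1 x j).2.2.2.2.1]
      ring
    rw [Finset.sum_congr rfl fun x _ => this x, ← Finset.sum_mul, hw1, one_mul]
  have hB' : ∀ j, AB j < Real.pi / 2 := by
    intro j
    refine av_lt _ _ _ (fun x => ?_) ⟨(j, 0), ?_⟩
    · have := (hG1 x j).2.2.2.2.2.1
      linarith
    · have : G (j, 0) j = gB j j := by simp [G]
      rw [this, hB2]
      linarith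
  have hT' : ∀ j, AT j < Real.pi / 2 := by
    intro j
    refine av_lt _ _ _ (fun x => ?_) ⟨(j, 1), ?_⟩
    · have := (hG1 x j).2.2.2.2.2.2
      linarith
    · have : G (j, 1) j = gT j j := by simp [G]
      rw [this, hT2]
      linarith
  have hL' : ∀ j, AL j < Real.pi := by
    intro j
    refine av_lt _ _ _ (fun x => ?_) ⟨(j, 2), ?_⟩
    · have := hG1 x j
      unfold AvgC at this
      linarith
    · have : G (j, 2) j = gL j j := by simp [G]
      rw [this]
      have := hL2 j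
      linarith
  have hR' : ∀ j, AR j < Real.pi := by
    intro j
    refine av_lt _ _ _ (fun x => ?_) ⟨(j, 3), ?_⟩
    · have := hG1 x j
      unfold AvgC at this
      linarith
    · have : G (j, 3) j = gR j j := by simp [G]
      rw [this]
      have := hR2 j
      linarith
  refine ⟨List.ofFn g, (avg_FS θ S g).mpr ⟨fun j => ?_, fun F => ?_⟩, ?_⟩
  · exact ⟨hAL j, hAR j, hAB j, hAT j, hsum j, by have := hB' j; linarith,
      by have := hT' j; linarith⟩
  · have h1 : ∀ j, avgF θ F j (g j) = ∑ x, w * avgF θ F j (G x j) := by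
      intro j
      simp only [avgF, g, AL, AR, AB, AT, av]
      rw [Finset.mul_sum, Finset.mul_sum, Finset.mul_sum, Finset.mul_sum,
        ← Finset.sum_add_distrib, ← Finset.sum_add_distrib, ← Finset.sum_add_distrib]
      apply Finset.sum_congr rfl
      intro x _
      ring
    rw [Finset.sum_congr rfl fun j _ => h1 j, Finset.sum_comm]
    have h2 : ∀ x, ∑ j, w * avgF θ F j (G x j) = w * (if F ∈ S then Real.pi else 0) := by
      intro x
      rw [← Finset.mul_sum, hG2]
    rw [Finset.sum_congr rfl fun x _ => h2 x, ← Finset.sum_mul, hw1, one_mul]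
  · intro u hu
    rw [List.mem_ofFn] at hu
    obtain ⟨j, rfl⟩ := hu
    have e1 := hAL j
    have e2 := hAR j
    have e3 := hAB j
    have e4 := hAT j
    have e5 := hsum j
    have e6 := hB' j
    have e7 := hT' j
    have e8 := hL' j
    have e9 := hR' j
    have m1 : max (AL j) (AR j) < Real.pi := max_lt e8 e9
    have m2 : AL j ≤ max (AL j) (AR j) := le_max_left _ _
    have m3 : AR j ≤ max (AL j) (AR j) := le_max_right _ _
    refine ⟨⟨e1, e2, e3, e4, e5, ?_, ?_, ?_, ?_, ?_⟩, ⟨?_, ?_⟩⟩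
    · exact (le_max_left _ _).trans (le_max_left _ _)
    · exact (le_max_right _ _).trans (le_max_left _ _)
    · change AL j + nn j ≤ _
      have : nn j ≤ Real.pi - AL j := by
        apply max_le
        · apply max_le <;> linarith
        · exact (min_le_right _ _).trans (by linarith)
      linarith
    · change AR j + nn j ≤ _
      have : nn j ≤ Real.pi - AR j := by
        apply max_le
        · apply max_le <;> linarith
        · exact (min_le_right _ _).trans (by linarith)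
      linarith
    · change 2 * nn j ≤ _
      have : nn j ≤ Real.pi / 2 := by
        apply max_le
        · apply max_le <;> linarith
        · exact (min_le_left _ _).trans (by linarith)
      linarith
    · change 0 < nn j
      apply lt_max_of_lt_right
      apply lt_min
      · linarith
      · linarith
    · change 2 * nn j < _
      have : nn j < Real.pi / 2 := by
        apply max_lt
        · apply max_lt <;> linarith
        · exact (min_le_left _ _).trans_lt (by linarith)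
      linarith

end Pool.Agent.Helper77.CR
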