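import Pool.Agent.Helper77.CR.Defs

/-! # CR: the number of half units (definition) -/

namespace Pool.Agent.Helper77.CR

open Pool.Agent.Helper28.TX (PV)

/-- the number of half units for the set `R` -/
def NT (θ : List (PV ℕ)) (R : Finset ℕ) : ℕ :=
  (θ.map fun q => tw (q.map fun x => decide (x ∈ R))).sum

end Pool.Agent.Helper77.CR
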