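import Pool.Agent.Helper98.CR.AVG
import Pool.Agent.Helper98.CR.NT
import Pool.Agent.Helper77.CR.Defs2
import Mathlib.Combinatorics.Hall.Basic

/-!
# CR: angles from the marriage theorem
-/

namespace Pool.Agent.Helper77.CR

open Pool.Agent.Helper9.FA (Item Cor Ang wfP labels)
open Pool.Agent.Helper28.TX (PV Pot)

/-- the region at a corner: left, right, bottom, top -/
def hallR (q : PV ℕ) (c : Fin 4) : ℕ := if c = 0 then q.L else if c = 1 then q.R else
  if c = 2 then q.B else q.T

/-- the corners of a token -/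
def hallB (b : Bool) : Finset (Fin 4) := if b = true then {0, 1, 3} else {0, 1, 2}

/-- the allowed corners of a token, `c0` is removed from the token `t0` -/
def hallA {N : ℕ} (t0 : Fin N × Bool) (c0 : Fin 4) (t : Fin N × Bool) : Finset (Fin 4) :=
  if t = t0 then (hallB t.2).erase c0 else hallB t.2

/-- the tokens which fit a set of regions -/
def hallT {θ : List (PV ℕ)} (A : Fin θ.length × Bool → Finset (Fin 4)) (R : Finset ℕ) :
    Finset (Fin θ.length × Bool) :=
  Finset.univ.filter fun t => ∃ c ∈ A t, hallR (θ.get t.1) c ∈ R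

theorem hall_NT (θ : List (PV ℕ)) (R : Finset ℕ) :
    (hallT (θ := θ) (fun t => hallB t.2) R).card = NT θ R := by
  unfold hallT NT
  rw [Finset.card_filter, Fintype.sum_prod_type]
  have h1 : (θ.map fun q => tw (q.map fun x => decide (x ∈ R))) =
      List.ofFn fun j : Fin θ.length => tw ((θ.get j).map fun x => decide (x ∈ R)) := by
    conv_lhs => rw [← List.ofFn_get θ]
    rw [List.map_ofFn]
    rfl
  rw [h1, List.sum_ofFn]
  apply Finset.sum_congr rfl
  intro j _
  rw [Fintype.sum_bool]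
  unfold tw PV.map
  have e1 : (∃ c ∈ hallB true, hallR (θ.get j) c ∈ R) ↔
      ((θ.get j).L ∈ R ∨ (θ.get j).R ∈ R ∨ (θ.get j).T ∈ R) := by
    simp [hallB, hallR]
  have e2 : (∃ c ∈ hallB false, hallR (θ.get j) c ∈ R) ↔
      ((θ.get j).L ∈ R ∨ (θ.get j).R ∈ R ∨ (θ.get j).B ∈ R) := by
    simp [hallB, hallR]
  simp only [e1, e2]
  by_cases a1 : (θ.get j).L ∈ R <;> by_cases a2 : (θ.get j).R ∈ R <;>
    by_cases a3 : (θ.get j).B ∈ R <;> by_cases a4 : (θ.get j).T ∈ R <;>
    simp only [a1, a2, a3, a4] <;> rfl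

theorem hall_core {θ : List (PV ℕ)} {S : Finset ℕ} (hS : S.card = θ.length)
    (t0 : Fin θ.length × Bool) (c0 : Fin 4)
    (hcard : ∀ R ⊆ S, R.Nonempty → 2 * R.card ≤ (hallT (θ := θ) (hallA t0 c0) R).card) :
    ∃ k : Fin θ.length × Bool → Fin 4, (∀ t, k t ∈ hallA t0 c0 t) ∧
      ∀ F, ∑ t : Fin θ.length × Bool, (if hallR (θ.get t.1) (k t) = F then (1 : ℝ) else 0) =
        if F ∈ S then 2 else 0 := by
  classical
  -- the marriage theorem
  let T : ↥S × Bool → Finset (Fin θ.length × Bool) := fun x =>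
    Finset.univ.filter fun t => ∃ c ∈ hallA t0 c0 t, hallR (θ.get t.1) c = x.1.1
  have hall : ∀ s : Finset (↥S × Bool), s.card ≤ (s.biUnion T).card := by
    intro s
    rcases s.eq_empty_or_nonempty with rfl | hs
    · simp
    set R : Finset ℕ := (s.image Prod.fst).map (Function.Embedding.subtype _) with hR
    have hRS : R ⊆ S := by
      intro x hx
      rw [hR, Finset.mem_map] at hx
      obtain ⟨y, _, rfl⟩ := hx
      exact y.2
    have hRne : R.Nonempty := by
      rw [hR, Finset.map_nonempty]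
      exact hs.image _
    have e1 : s.card ≤ 2 * R.card := by
      have : s ⊆ (s.image Prod.fst) ×ˢ (Finset.univ : Finset Bool) := by
        intro x hx
        rw [Finset.mem_product]
        exact ⟨Finset.mem_image_of_mem _ hx, Finset.mem_univ _⟩
      have h := Finset.card_le_card this
      rw [Finset.card_product, Finset.card_univ, Fintype.card_bool] at h
      rw [hR, Finset.card_map]
      omega
    have e2 : hallT (hallA t0 c0) R ⊆ s.biUnion T := by
      intro t ht
      unfold hallT at ht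
      rw [Finset.mem_filter] at ht
      obtain ⟨-, c, hc, hcR⟩ := ht
      rw [hR, Finset.mem_map] at hcR
      obtain ⟨y, hy, hy'⟩ := hcR
      rw [Finset.mem_image] at hy
      obtain ⟨x, hx, rfl⟩ := hy
      rw [Finset.mem_biUnion]
      refine ⟨x, hx, ?_⟩
      simp only [T, Finset.mem_filter, Finset.mem_univ, true_and]
      exact ⟨c, hc, hy'.symm⟩
    exact e1.trans ((hcard R hRS hRne).trans (Finset.card_le_card e2))
  obtain ⟨f, hf, hfT⟩ := (Finset.all_card_le_biUnion_card_iff_exists_injective T).mp hall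
  have hbij : Function.Bijective f := by
    rw [Fintype.bijective_iff_injective_and_card]
    refine ⟨hf, ?_⟩
    rw [Fintype.card_prod, Fintype.card_prod, Fintype.card_coe, hS, Fintype.card_fin]
  let E := Equiv.ofBijective f hbij
  have hk : ∀ t, ∃ c, c ∈ hallA t0 c0 t ∧ hallR (θ.get t.1) c = (E.symm t).1.1 := by
    intro t
    have h := hfT (E.symm t)
    have h' : f (E.symm t) = t := E.apply_symm_apply t
    rw [h'] at h
    simp only [T, Finset.mem_filter, Finset.mem_univ, true_and] at h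
    exact h
  choose k hk1 hk2 using hk
  refine ⟨k, hk1, fun F => ?_⟩
  simp only [hk2]
  rw [Equiv.sum_comp E.symm (fun x : ↥S × Bool => if x.1.1 = F then (1 : ℝ) else 0),
    Fintype.sum_prod_type]
  simp only [Fintype.sum_bool]
  by_cases hF : F ∈ S
  · rw [if_pos hF, Finset.sum_eq_single (⟨F, hF⟩ : ↥S)]
    · simp; norm_num
    · intro x _ hx
      have : x.1 ≠ F := fun h => hx (Subtype.ext h)
      simp [this]
    · intro h
      exact absurd (Finset.mem_univ _) h
  · rw [if_neg hF]
    apply Finset.sum_eq_zero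
    intro x _
    have : x.1 ≠ F := fun h => hF (h ▸ x.2)
    simp [this]

/-- half units -/
noncomputable def hallU {N : ℕ} (k : Fin N × Bool → Fin 4) (j : Fin N) (c : Fin 4) : ℝ :=
  Real.pi / 2 * ((if k (j, false) = c then 1 else 0) + (if k (j, true) = c then 1 else 0))

theorem hall_FS {θ : List (PV ℕ)} {S : Finset ℕ} {t0 : Fin θ.length × Bool} {c0 : Fin 4}
    {k : Fin θ.length × Bool → Fin 4} (hk : ∀ t, k t ∈ hallA t0 c0 t)
    (hF : ∀ F, ∑ t : Fin θ.length × Bool,
      (if hallR (θ.get t.1) (k t) = F then (1 : ℝ) else 0) = if F ∈ S then 2 else 0) :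
    FS θ S (List.ofFn fun j => (⟨0, hallU k j 0, hallU k j 1, hallU k j 2, hallU k j 3⟩ : Cor ℝ)) := by
  have hpi := Real.pi_pos
  have hnn : ∀ j c, 0 ≤ hallU k j c := by
    intro j c
    unfold hallU
    positivity
  have hk' : ∀ t, k t ∈ hallB t.2 := by
    intro t
    have := hk t
    unfold hallA at this
    split_ifs at this
    · exact Finset.mem_of_mem_erase this
    · exact this
  rw [avg_FS]
  refine ⟨fun j => ⟨hnn j 0, hnn j 1, hnn j 2, hnn j 3, ?_, ?_, ?_⟩, fun F => ?_⟩
  · change hallU k j 0 + hallU k j 1 + hallU k j 2 + hallU k j 3 = Real.pi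
    have hone : ∀ c : Fin 4, ((if c = 0 then (1 : ℝ) else 0) + (if c = 1 then (1 : ℝ) else 0) +
        (if c = 2 then (1 : ℝ) else 0) + (if c = 3 then (1 : ℝ) else 0)) = 1 := by
      intro c
      fin_cases c <;> simp
    have a := hone (k (j, false))
    have b := hone (k (j, true))
    unfold hallU
    linear_combination (Real.pi / 2) * a + (Real.pi / 2) * b
  · change 2 * hallU k j 2 ≤ Real.pi
    have : k (j, true) ≠ 2 := by
      intro h
      have := hk' (j, true)
      rw [h] at this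
      simp [hallB] at this
    unfold hallU
    rw [if_neg this]
    split_ifs
    · linarith
    · linarith
  · change 2 * hallU k j 3 ≤ Real.pi
    have : k (j, false) ≠ 3 := by
      intro h
      have := hk' (j, false)
      rw [h] at this
      simp [hallB] at this
    unfold hallU
    rw [if_neg this]
    split_ifs
    · linarith
    · linarith
  · have h1 : ∀ j : Fin θ.length, avgF θ F j (⟨0, hallU k j 0, hallU k j 1, hallU k j 2,
        hallU k j 3⟩ : Cor ℝ) = Real.pi / 2 *
          ((if hallR (θ.get j) (k (j, true)) = F then (1 : ℝ) else 0) +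
            (if hallR (θ.get j) (k (j, false)) = F then (1 : ℝ) else 0)) := by
      intro j
      have hc : ∀ c : Fin 4, (if (θ.get j).L = F then (1 : ℝ) else 0) * (if c = 0 then 1 else 0) +
          (if (θ.get j).B = F then (1 : ℝ) else 0) * (if c = 2 then 1 else 0) +
          (if (θ.get j).R = F then (1 : ℝ) else 0) * (if c = 1 then 1 else 0) +
          (if (θ.get j).T = F then (1 : ℝ) else 0) * (if c = 3 then 1 else 0) =
          if hallR (θ.get j) c = F then (1 : ℝ) else 0 := by
        intro c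
        fin_cases c <;> simp [hallR]
      have a := hc (k (j, false))
      have b := hc (k (j, true))
      unfold avgF hallU
      linear_combination (Real.pi / 2) * a + (Real.pi / 2) * b
    rw [Finset.sum_congr rfl fun j _ => h1 j, ← Finset.mul_sum]
    have h2 := hF F
    rw [Fintype.sum_prod_type] at h2
    simp only [Fintype.sum_bool] at h2
    rw [h2]
    split_ifs
    · ring
    · ring

theorem hall_card {θ : List (PV ℕ)} {S : Finset ℕ}
    (h : ∀ R, R ⊆ S → R.Nonempty → 2 * R.card ≤ NT θ R) (t0 : Fin θ.length × Bool) (c0 : Fin 4)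
    (h3 : ∀ R, R ⊆ S → R.Nonempty → NT θ R = 2 * R.card →
      (∃ c ∈ hallB t0.2, hallR (θ.get t0.1) c ∈ R) →
      ∃ c ∈ (hallB t0.2).erase c0, hallR (θ.get t0.1) c ∈ R) :
    ∀ R ⊆ S, R.Nonempty → 2 * R.card ≤ (hallT (θ := θ) (hallA t0 c0) R).card := by
  classical
  have hmono : ∀ R, (hallT (θ := θ) (fun t => hallB t.2) R).erase t0 ⊆
      hallT (hallA t0 c0) R := by
    intro R t ht
    rw [Finset.mem_erase] at ht
    unfold hallT at ht ⊢
    rw [Finset.mem_filter] at ht ⊢
    refine ⟨Finset.mem_univ _, ?_⟩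
    unfold hallA
    rw [if_neg ht.1]
    exact ht.2.2
  intro R hR hne
  have h0 := h R hR hne
  by_cases hRS : NT θ R = 2 * R.card
  · have e1 : hallT (θ := θ) (fun t => hallB t.2) R ⊆ hallT (hallA t0 c0) R := by
      intro t ht
      by_cases htt : t = t0
      · subst htt
        have h4 : ∃ c ∈ hallB t.2, hallR (θ.get t.1) c ∈ R := by
          unfold hallT at ht
          rw [Finset.mem_filter] at ht
          exact ht.2
        unfold hallT
        rw [Finset.mem_filter]
        refine ⟨Finset.mem_univ _, ?_⟩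
        unfold hallA
        rw [if_pos rfl]
        exact h3 R hR hne hRS h4
      · exact hmono R (Finset.mem_erase.mpr ⟨htt, ht⟩)
    have e3 := Finset.card_le_card e1
    rw [hall_NT] at e3
    omega
  · have e2 := Finset.card_le_card (hmono R)
    have e3 := Finset.pred_card_le_card_erase (s := hallT (θ := θ) (fun t => hallB t.2) R)
      (a := t0)
    rw [hall_NT] at e3
    omega

theorem hall_submod (θ : List (PV ℕ)) (R R' : Finset ℕ) :
    NT θ (R ∩ R') + NT θ (R ∪ R') ≤ NT θ R + NT θ R' := by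
  induction θ with
  | nil => simp [NT]
  | cons q θ ih =>
    have e : ∀ X, NT (q :: θ) X = tw (q.map fun x => decide (x ∈ X)) + NT θ X := by
      intro X
      simp [NT]
    rw [e, e, e, e]
    have h1 : tw (q.map fun x => decide (x ∈ R ∩ R')) + tw (q.map fun x => decide (x ∈ R ∪ R')) ≤
        tw (q.map fun x => decide (x ∈ R)) + tw (q.map fun x => decide (x ∈ R')) := by
      unfold tw PV.map
      simp only [Finset.mem_inter, Finset.mem_union]
      by_cases a1 : q.L ∈ R <;> by_cases a2 : q.R ∈ R <;>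
      by_cases a3 : q.B ∈ R <;> by_cases a4 : q.T ∈ R <;>
      by_cases b1 : q.L ∈ R' <;> by_cases b2 : q.R ∈ R' <;>
      by_cases b3 : q.B ∈ R' <;> by_cases b4 : q.T ∈ R' <;>
      simp [a1, a2, a3, a4, b1, b2, b3, b4]
    omega

theorem hall_inter {θ : List (PV ℕ)} {S R R' : Finset ℕ}
    (h : ∀ R, R ⊆ S → R.Nonempty → 2 * R.card ≤ NT θ R) (hR : R ⊆ S) (hR' : R' ⊆ S)
    (h1 : NT θ R = 2 * R.card) (h2 : NT θ R' = 2 * R'.card) (hne : (R ∩ R').Nonempty) :
    NT θ (R ∩ R') = 2 * (R ∩ R').card := by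
  have e1 := h (R ∩ R') (Finset.inter_subset_left.trans hR) hne
  have e2 := h (R ∪ R') (Finset.union_subset hR hR')
    (hne.mono (Finset.inter_subset_left.trans Finset.subset_union_left))
  have e3 := hall_submod θ R R'
  have e4 := Finset.card_inter_add_card_union R R'
  omega

theorem hall_angles {θ : List (PV ℕ)} {S : Finset ℕ} (hS : S.card = θ.length)
    (h : ∀ R, R ⊆ S → R.Nonempty → 2 * R.card ≤ NT θ R ∧
      (NT θ R = 2 * R.card → ∀ q ∈ θ, ¬ Bad (q.map fun x => decide (x ∈ R)))) {i : ℕ}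
    (hi : i < θ.length) :
    (∃ us u, FS θ S us ∧ us[i]? = some u ∧ u.uB = 0) ∧
    (∃ us u, FS θ S us ∧ us[i]? = some u ∧ u.uT = 0) ∧
    (∃ us u, FS θ S us ∧ us[i]? = some u ∧ 2 * u.uL ≤ Real.pi) ∧
    (∃ us u, FS θ S us ∧ us[i]? = some u ∧ 2 * u.uR ≤ Real.pi) := by
  have hpi := Real.pi_pos
  have hle : ∀ R, R ⊆ S → R.Nonempty → 2 * R.card ≤ NT θ R := fun R h1 h2 => (h R h1 h2).1
  obtain ⟨q, hq⟩ : ∃ q, θ.get ⟨i, hi⟩ = q := ⟨_, rfl⟩
  have hqm : q ∈ θ := hq ▸ List.get_mem θ ⟨i, hi⟩
  -- the tight sets at `i`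
  have hbad : ∀ R, R ⊆ S → R.Nonempty → NT θ R = 2 * R.card →
      ¬ (q.L ∉ R ∧ q.R ∉ R ∧ (q.B ∈ R ∨ q.T ∈ R)) ∧
      ¬ (q.L ∈ R ∧ q.R ∉ R ∧ q.B ∉ R ∧ q.T ∉ R) ∧ ¬ (q.L ∉ R ∧ q.R ∈ R ∧ q.B ∉ R ∧ q.T ∉ R) := by
    intro R h1 h2 h3
    have h4 := (h R h1 h2).2 h3 q hqm
    unfold Bad PV.map at h4
    refine ⟨?_, ?_, ?_⟩
    · rintro ⟨a1, a2, a3⟩
      apply h4
      left
      simpa [a1, a2] using a3
    · rintro ⟨a1, a2, a3, a4⟩
      apply h4
      right
      simp [a1, a2, a3, a4]
    · rintro ⟨a1, a2, a3, a4⟩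
      apply h4
      right
      simp [a1, a2, a3, a4]
  have main : ∀ (b0 : Bool) (c0 : Fin 4),
      (∀ R, R ⊆ S → R.Nonempty → NT θ R = 2 * R.card →
        (∃ c ∈ hallB b0, hallR q c ∈ R) → ∃ c ∈ (hallB b0).erase c0, hallR q c ∈ R) →
      ∃ k : Fin θ.length × Bool → Fin 4,
        k (⟨i, hi⟩, b0) ≠ c0 ∧ (∀ t, k t ∈ hallB t.2) ∧
        FS θ S (List.ofFn fun j =>
          (⟨0, hallU k j 0, hallU k j 1, hallU k j 2, hallU k j 3⟩ : Cor ℝ)) := by
    intro b0 c0 h3
    obtain ⟨k, hk, hkF⟩ := hall_core hS (⟨i, hi⟩, b0) c0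
      (hall_card hle (⟨i, hi⟩, b0) c0 (by simpa only [hq] using h3))
    refine ⟨k, ?_, ?_, hall_FS hk hkF⟩
    · have := hk (⟨i, hi⟩, b0)
      unfold hallA at this
      rw [if_pos rfl] at this
      exact Finset.ne_of_mem_erase this
    · intro t
      have := hk t
      unfold hallA at this
      split_ifs at this
      · exact Finset.mem_of_mem_erase this
      · exact this
  have hget : ∀ k : Fin θ.length × Bool → Fin 4,
      (List.ofFn fun j => (⟨0, hallU k j 0, hallU k j 1, hallU k j 2, hallU k j 3⟩ : Cor ℝ))[i]? =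
      some ⟨0, hallU k ⟨i, hi⟩ 0, hallU k ⟨i, hi⟩ 1, hallU k ⟨i, hi⟩ 2, hallU k ⟨i, hi⟩ 3⟩ := by
    intro k
    rw [List.getElem?_ofFn]
    simp [hi]
  refine ⟨?_, ?_, ?_, ?_⟩
  · obtain ⟨k, hk1, hk2, hk3⟩ := main false 2 (by
      rintro R h1 h2 h3 ⟨c, hc, hcR⟩
      have h4 := (hbad R h1 h2 h3).1
      by_cases a1 : q.L ∈ R
      · exact ⟨0, by decide, by simpa [hallR] using a1⟩
      by_cases a2 : q.R ∈ R
      · exact ⟨1, by decide, by simpa [hallR] using a2⟩
      exfalso
      refine h4 ⟨a1, a2, Or.inl ?_⟩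
      have : c = 0 ∨ c = 1 ∨ c = 2 := by simpa [hallB] using hc
      rcases this with rfl | rfl | rfl
      · exact absurd (by simpa [hallR] using hcR) a1
      · exact absurd (by simpa [hallR] using hcR) a2
      · simpa [hallR] using hcR)
    refine ⟨_, _, hk3, hget k, ?_⟩
    change hallU k ⟨i, hi⟩ 2 = 0
    have h4 : k (⟨i, hi⟩, true) ≠ 2 := by
      intro h
      have := hk2 (⟨i, hi⟩, true)
      rw [h] at this
      simp [hallB] at this
    unfold hallU
    rw [if_neg hk1, if_neg h4]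
    ring
  · obtain ⟨k, hk1, hk2, hk3⟩ := main true 3 (by
      rintro R h1 h2 h3 ⟨c, hc, hcR⟩
      have h4 := (hbad R h1 h2 h3).1
      by_cases a1 : q.L ∈ R
      · exact ⟨0, by decide, by simpa [hallR] using a1⟩
      by_cases a2 : q.R ∈ R
      · exact ⟨1, by decide, by simpa [hallR] using a2⟩
      exfalso
      refine h4 ⟨a1, a2, Or.inr ?_⟩
      have : c = 0 ∨ c = 1 ∨ c = 3 := by simpa [hallB] using hc
      rcases this with rfl | rfl | rfl
      · exact absurd (by simpa [hallR] using hcR) a1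
      · exact absurd (by simpa [hallR] using hcR) a2
      · simpa [hallR] using hcR)
    refine ⟨_, _, hk3, hget k, ?_⟩
    change hallU k ⟨i, hi⟩ 3 = 0
    have h4 : k (⟨i, hi⟩, false) ≠ 3 := by
      intro h
      have := hk2 (⟨i, hi⟩, false)
      rw [h] at this
      simp [hallB] at this
    unfold hallU
    rw [if_neg hk1, if_neg h4]
    ring
  · obtain ⟨b0, hb0⟩ : ∃ b0, ∀ R, R ⊆ S → R.Nonempty → NT θ R = 2 * R.card →
        (∃ c ∈ hallB b0, hallR q c ∈ R) → ∃ c ∈ (hallB b0).erase 0, hallR q c ∈ R := by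
      by_cases hLB : ∃ R, R ⊆ S ∧ R.Nonempty ∧ NT θ R = 2 * R.card ∧
          q.L ∈ R ∧ q.R ∉ R ∧ q.T ∉ R
      · obtain ⟨R, r1, r2, r3, r4, r5, r6⟩ := hLB
        refine ⟨false, ?_⟩
        rintro R' h1 h2 h3 ⟨c, hc, hcR⟩
        by_cases a1 : q.R ∈ R'
        · exact ⟨1, by decide, by simpa [hallR] using a1⟩
        by_cases a2 : q.B ∈ R'
        · exact ⟨2, by decide, by simpa [hallR] using a2⟩
        exfalso
        have a3 : q.L ∈ R' := by
          have : c = 0 ∨ c = 1 ∨ c = 2 := by simpa [hallB] using hc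
          rcases this with rfl | rfl | rfl
          · simpa [hallR] using hcR
          · exact absurd (by simpa [hallR] using hcR) a1
          · exact absurd (by simpa [hallR] using hcR) a2
        have hne : (R ∩ R').Nonempty := ⟨q.L, Finset.mem_inter.mpr ⟨r4, a3⟩⟩
        refine (hbad (R ∩ R') (Finset.inter_subset_left.trans r1) hne
          (hall_inter hle r1 h1 r3 h3 hne)).2.1 ⟨?_, ?_, ?_, ?_⟩ <;> simp [r4, r5, r6, a1, a2, a3]
      · refine ⟨true, ?_⟩
        rintro R' h1 h2 h3 ⟨c, hc, hcR⟩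
        by_cases a1 : q.R ∈ R'
        · exact ⟨1, by decide, by simpa [hallR] using a1⟩
        by_cases a2 : q.T ∈ R'
        · exact ⟨3, by decide, by simpa [hallR] using a2⟩
        exfalso
        have a3 : q.L ∈ R' := by
          have : c = 0 ∨ c = 1 ∨ c = 3 := by simpa [hallB] using hc
          rcases this with rfl | rfl | rfl
          · simpa [hallR] using hcR
          · exact absurd (by simpa [hallR] using hcR) a1
          · exact absurd (by simpa [hallR] using hcR) a2
        exact hLB ⟨R', h1, h2, h3, a3, a1, a2⟩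
    obtain ⟨k, hk1, hk2, hk3⟩ := main b0 0 hb0
    refine ⟨_, _, hk3, hget k, ?_⟩
    change 2 * hallU k ⟨i, hi⟩ 0 ≤ _
    unfold hallU
    cases b0
    · rw [if_neg hk1]
      split_ifs <;> linarith
    · rw [if_neg hk1]
      split_ifs <;> linarith
  · obtain ⟨b0, hb0⟩ : ∃ b0, ∀ R, R ⊆ S → R.Nonempty → NT θ R = 2 * R.card →
        (∃ c ∈ hallB b0, hallR q c ∈ R) → ∃ c ∈ (hallB b0).erase 1, hallR q c ∈ R := by
      by_cases hLB : ∃ R, R ⊆ S ∧ R.Nonempty ∧ NT θ R = 2 * R.card ∧
          q.R ∈ R ∧ q.L ∉ R ∧ q.T ∉ R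
      · obtain ⟨R, r1, r2, r3, r4, r5, r6⟩ := hLB
        refine ⟨false, ?_⟩
        rintro R' h1 h2 h3 ⟨c, hc, hcR⟩
        by_cases a1 : q.L ∈ R'
        · exact ⟨0, by decide, by simpa [hallR] using a1⟩
        by_cases a2 : q.B ∈ R'
        · exact ⟨2, by decide, by simpa [hallR] using a2⟩
        exfalso
        have a3 : q.R ∈ R' := by
          have : c = 0 ∨ c = 1 ∨ c = 2 := by simpa [hallB] using hc
          rcases this with rfl | rfl | rfl
          · exact absurd (by simpa [hallR] using hcR) a1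
          · simpa [hallR] using hcR
          · exact absurd (by simpa [hallR] using hcR) a2
        have hne : (R ∩ R').Nonempty := ⟨q.R, Finset.mem_inter.mpr ⟨r4, a3⟩⟩
        refine (hbad (R ∩ R') (Finset.inter_subset_left.trans r1) hne
          (hall_inter hle r1 h1 r3 h3 hne)).2.2 ⟨?_, ?_, ?_, ?_⟩ <;> simp [r4, r5, r6, a1, a2, a3]
      · refine ⟨true, ?_⟩
        rintro R' h1 h2 h3 ⟨c, hc, hcR⟩
        by_cases a1 : q.L ∈ R'
        · exact ⟨0, by decide, by simpa [hallR] using a1⟩
        by_cases a2 : q.T ∈ R'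
        · exact ⟨3, by decide, by simpa [hallR] using a2⟩
        exfalso
        have a3 : q.R ∈ R' := by
          have : c = 0 ∨ c = 1 ∨ c = 3 := by simpa [hallB] using hc
          rcases this with rfl | rfl | rfl
          · exact absurd (by simpa [hallR] using hcR) a1
          · simpa [hallR] using hcR
          · exact absurd (by simpa [hallR] using hcR) a2
        exact hLB ⟨R', h1, h2, h3, a3, a1, a2⟩
    obtain ⟨k, hk1, hk2, hk3⟩ := main b0 1 hb0
    refine ⟨_, _, hk3, hget k, ?_⟩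
    change 2 * hallU k ⟨i, hi⟩ 1 ≤ _
    unfold hallU
    cases b0
    · rw [if_neg hk1]
      split_ifs <;> linarith
    · rw [if_neg hk1]
      split_ifs <;> linarith

end Pool.Agent.Helper77.CR
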