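import Pool.Agent.Helper40.CR.UNI
import Pool.Agent.Helper47.CR.BW
import Pool.Agent.Helper98.CR.PAIR

/-!
# CR: the inequalities
-/

namespace Pool.Agent.Helper77.CR

open Pool.Agent.Helper9.FA (Item Cor Ang wfP labels)
open Pool.Agent.Helper9.TW (Lab Conn)
open Pool.Agent.Helper28.TX (PV Pot)

variable {α : Type}

/-! ### lemmas on lists -/

theorem pos_head_append {l s s' : List ℝ} (h : l ≠ []) (h0 : (l ++ s).head? = some 0) :
    (l ++ s').head? = some 0 := by
  cases l with
  | nil => exact absurd rfl h
  | cons x l => simpa using h0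

theorem pos_last_append {s s' r : List ℝ} (h : r ≠ []) (h0 : (s ++ r).getLast? = some 0) :
    (s' ++ r).getLast? = some 0 := by
  rw [List.getLast?_append_of_ne_nil _ h] at h0 ⊢
  exact h0

theorem pos_concat {K : Type} {l : List K} (h : l ≠ []) : ∃ l' x, l = l' ++ [x] :=
  ⟨l.dropLast, l.getLast h, (List.dropLast_append_getLast h).symm⟩

/-! ### lengths -/

theorem pos_even {P : List (Item α)} {d : List ℝ} {us : List (Cor ℝ)}
    (h : AngG [0, 0] P d us) : d.length % 2 = 0 := by
  induction h with
  | nil => rfl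
  | cup h ih => simp only [List.length_append, List.length_cons] at ih ⊢; omega
  | cap h hab ih => simp only [List.length_append, List.length_cons] at ih ⊢; omega
  | box h ih => simp only [List.length_append, List.length_cons] at ih ⊢; omega

theorem pos_len {P : List (Item α)} {t d : List ℝ} {us : List (Cor ℝ)}
    (h : AngG t P d us) : us.length = (labels P).length := by
  induction h with
  | nil => rfl
  | cup h ih => exact ih
  | cap h hab ih => exact ih
  | box h ih => simp [labels, ih]

theorem pos_wf {P : List (Item α)} {d : List ℝ} {us : List (Cor ℝ)}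
    (h : AngG [0, 0] P d us) : ∃ n, d.length = n + 1 ∧ wfP n P 1 := by
  induction h with
  | nil => exact ⟨1, rfl, rfl⟩
  | @cup P l r a b cs h ih =>
    obtain ⟨n, hn, hw⟩ := ih
    simp only [List.length_append, List.length_cons] at hn
    refine ⟨l.length + r.length, by simp; omega, ?_⟩
    refine ⟨by omega, ?_⟩
    have : n = l.length + r.length + 2 := by omega
    subst this
    exact hw
  | @cap P l r x a b cs h hab ih =>
    obtain ⟨n, hn, hw⟩ := ih
    simp only [List.length_append, List.length_cons] at hn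
    refine ⟨l.length + r.length + 2, by simp; omega, ?_⟩
    refine ⟨by omega, ?_⟩
    have : n = l.length + r.length + 2 - 2 := by omega
    subst this
    exact hw
  | @box P l r x y e c cs h ih =>
    obtain ⟨n, hn, hw⟩ := ih
    simp only [List.length_append, List.length_cons] at hn
    refine ⟨l.length + r.length + 2, by simp; omega, ?_⟩
    refine ⟨by omega, ?_⟩
    have : n = l.length + r.length + 2 := by omega
    subst this
    exact hw

theorem pos_wf_insert {Pb Q : List (Item α)} {m n k : ℕ} (a : α) (h : wfP m (Pb ++ Q) 1)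
    (hQ : wfP n Q 1) (hk : k + 2 ≤ n) : wfP m (Pb ++ .box k a :: Q) 1 := by
  induction Pb generalizing m with
  | nil =>
    have h1 : m = n := pair_wfP_inj h hQ
    subst h1
    exact ⟨hk, h⟩
  | cons i Pb ih =>
    cases i with
    | cup j => exact ⟨h.1, ih h.2⟩
    | cap j => exact ⟨h.1, ih h.2⟩
    | box j b => exact ⟨h.1, ih h.2⟩

theorem pos_pot_split {K : Type} {Pb Q : List (Item α)} {c0 c1 : K} {c : List K} {θ : List (PV K)}
    {e : List (Bool × K × K)} (h : Pot c0 c1 (Pb ++ Q) c θ e) :
    ∃ (c' : List K) (θ1 θ2 : List (PV K)) (e2 : List (Bool × K × K)), θ = θ1 ++ θ2 ∧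
      θ1.length = (labels Pb).length ∧ Pot c0 c1 Q c' θ2 e2 := by
  induction Pb generalizing c θ e with
  | nil => exact ⟨c, [], θ, e, rfl, rfl, h⟩
  | cons i Pb ih =>
    cases i with
    | cup j =>
      obtain ⟨l, r, b, m, e', hl, rfl, rfl, hp'⟩ := pair_cup_inv h
      exact ih hp'
    | cap j =>
      obtain ⟨l, r, b, m, e', hl, rfl, rfl, hp'⟩ := pair_cap_inv h
      exact ih hp'
    | box j b =>
      obtain ⟨l, r, q0, θ', hl, rfl, rfl, hp'⟩ := pair_box_inv h
      obtain ⟨c', θ1, θ2, e2, h1, h2, h3⟩ := ih hp'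
      exact ⟨c', q0 :: θ1, θ2, e2, by rw [h1]; rfl, by simp [labels, h2], h3⟩

theorem pos_uni {Pb X : List (Item α)} (h : wfP 1 (Pb ++ X) 1) :
    ∃ (d0 d1 : ℕ) (θ1 θ2 : List (PV ℕ)) (e' : List (Bool × ℕ × ℕ)) (c' : List ℕ)
      (e2 : List (Bool × ℕ × ℕ)), Uni (Pb ++ X) d0 d1 [d0, d1] (θ1 ++ θ2) e' ∧
      θ1.length = (labels Pb).length ∧ Pot d0 d1 X c' θ2 e2 := by
  obtain ⟨d0, d1, c, θ, e, hU⟩ := exists_uni h
  obtain ⟨n, hn, hw⟩ := pot_wf hU.pot
  have hn1 : n = 1 := pair_wfP_inj hw h
  subst hn1
  have hc : c = [d0, d1] := by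
    obtain ⟨h1, h2⟩ := pot_edge hU.pot
    rcases c with _ | ⟨x, _ | ⟨y, _ | ⟨z, c⟩⟩⟩
    · simp at hn
    · simp at hn
    · simp at h1 h2
      rw [h1, h2]
    · simp at hn
  subst hc
  obtain ⟨c', θ1, θ2, e2, rfl, h2, h3⟩ := pos_pot_split hU.pot
  exact ⟨d0, d1, θ1, θ2, e, c', e2, hU, h2, h3⟩

/-! ### angles in the outer regions -/

theorem pos_wsum_nonneg {θ : List (PV ℝ)} {us : List (Cor ℝ)}
    (h1 : ∀ q ∈ θ, 0 ≤ q.L ∧ 0 ≤ q.B ∧ 0 ≤ q.R ∧ 0 ≤ q.T)
    (h2 : ∀ u ∈ us, 0 ≤ u.uL ∧ 0 ≤ u.uB ∧ 0 ≤ u.uR ∧ 0 ≤ u.uT) : 0 ≤ wsumA θ us := by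
  unfold wsumA
  induction θ generalizing us with
  | nil => simp
  | cons q θ ih =>
    cases us with
    | nil => simp
    | cons u us =>
      rw [List.zipWith_cons_cons, List.sum_cons]
      have a := h1 q (by simp)
      have b := h2 u (by simp)
      have c := ih (us := us) (fun q hq => h1 q (by simp [hq])) (fun u hu => h2 u (by simp [hu]))
      have := mul_nonneg a.1 b.1
      have := mul_nonneg a.2.1 b.2.1
      have := mul_nonneg a.2.2.1 b.2.2.1
      have := mul_nonneg a.2.2.2 b.2.2.2
      linarith

theorem pos_outer {θ1 θ2 : List (PV ℕ)} {q : PV ℕ} {us1 us2 : List (Cor ℝ)} {u : Cor ℝ}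
    {S : Finset ℕ} (hF : FS (θ1 ++ q :: θ2) S (us1 ++ u :: us2)) (hl : θ1.length = us1.length)
    {F : ℕ} (hFS : F ∉ S) : (q.L = F → u.uL = 0) ∧ (q.R = F → u.uR = 0) := by
  have h1 := hF.face F
  rw [if_neg hFS, fsum] at h1
  have h2 : wsumA ((θ1 ++ q :: θ2).map (PV.map fun x => if x = F then (1 : ℝ) else 0))
      (us1 ++ u :: us2) = wsumA (θ1.map (PV.map fun x => if x = F then (1 : ℝ) else 0)) us1 +
      (((if q.L = F then (1 : ℝ) else 0) * u.uL + (if q.B = F then (1 : ℝ) else 0) * u.uB +
        (if q.R = F then (1 : ℝ) else 0) * u.uR + (if q.T = F then (1 : ℝ) else 0) * u.uT) +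
        wsumA (θ2.map (PV.map fun x => if x = F then (1 : ℝ) else 0)) us2) := by
    unfold wsumA
    rw [List.map_append, List.zipWith_append (by simpa using hl), List.sum_append, List.map_cons,
      List.zipWith_cons_cons, List.sum_cons]
    rfl
  rw [h2] at h1
  have hq : ∀ (θ : List (PV ℕ)), ∀ q ∈ θ.map (PV.map fun x => if x = F then (1 : ℝ) else 0),
      0 ≤ q.L ∧ 0 ≤ q.B ∧ 0 ≤ q.R ∧ 0 ≤ q.T := by
    intro θ q hq
    rw [List.mem_map] at hq
    obtain ⟨q', -, rfl⟩ := hq
    simp only [PV.map]
    refine ⟨?_, ?_, ?_, ?_⟩ <;> split_ifs <;> norm_num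
  have hnn : ∀ u' ∈ us1 ++ u :: us2, 0 ≤ u'.uL ∧ 0 ≤ u'.uB ∧ 0 ≤ u'.uR ∧ 0 ≤ u'.uT := by
    intro u' hu'
    have := hF.nn u' hu'
    exact ⟨this.1, this.2.2.1, this.2.1, this.2.2.2.1⟩
  have a1 := pos_wsum_nonneg (hq θ1) (us := us1) fun u' hu' => hnn u' (by simp [hu'])
  have a2 := pos_wsum_nonneg (hq θ2) (us := us2) fun u' hu' => hnn u' (by simp [hu'])
  have a3 := hnn u (by simp)
  have b1 : 0 ≤ (if q.L = F then (1 : ℝ) else 0) * u.uL :=
    mul_nonneg (by split_ifs <;> norm_num) a3.1
  have b2 : 0 ≤ (if q.B = F then (1 : ℝ) else 0) * u.uB :=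
    mul_nonneg (by split_ifs <;> norm_num) a3.2.1
  have b3 : 0 ≤ (if q.R = F then (1 : ℝ) else 0) * u.uR :=
    mul_nonneg (by split_ifs <;> norm_num) a3.2.2.1
  have b4 : 0 ≤ (if q.T = F then (1 : ℝ) else 0) * u.uT :=
    mul_nonneg (by split_ifs <;> norm_num) a3.2.2.2
  constructor
  · intro h
    have : (if q.L = F then (1 : ℝ) else 0) * u.uL = 0 := by linarith
    rw [if_pos h, one_mul] at this
    exact this
  · intro h
    have : (if q.R = F then (1 : ℝ) else 0) * u.uR = 0 := by linarith
    rw [if_pos h, one_mul] at this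
    exact this

/-! ### the theorem -/

theorem ang_of_angG {P : List (Item α)} (a : α) (hP : wfP 1 P 1) (hc : Conn P)
    {c0 c1 : ℕ} {θ : List (PV ℕ)} {e : List (Bool × ℕ × ℕ)} (hU : Uni P c0 c1 [c0, c1] θ e)
    {us : List (Cor ℝ)} (hF : FS θ (All c0 c1 θ e) us) (hok : ∀ u ∈ us, u.Ok)
    (h : AngG [0, 0] P [0, 0] us) : Ang P [0, 0] us := by
  suffices H : ∀ (Q : List (Item α)) (d : List ℝ) (us2 : List (Cor ℝ)), AngG [0, 0] Q d us2 →
      ∀ (Pb : List (Item α)) (us1 : List (Cor ℝ)), P = Pb ++ Q → us = us1 ++ us2 →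
        AngG d Pb [0, 0] us1 → Ang Q d us2 ∧ d.head? = some 0 ∧ d.getLast? = some 0 from
    (H P [0, 0] us h [] [] rfl rfl .nil).1
  intro Q d us2 hQ
  induction hQ with
  | nil => intro Pb us1 _ _ _; exact ⟨.nil, rfl, rfl⟩
  | @cup Q l r x b us2 hQ ih =>
    intro Pb us1 hPQ hus h1
    have h1' : AngG (l ++ x :: Real.pi :: b :: r) (Pb ++ [.cup l.length]) [0, 0] (us1 ++ []) :=
      angG_append (.cup .nil) h1
    rw [List.append_nil] at h1'
    have hPQ' : P = (Pb ++ [.cup l.length]) ++ Q := by rw [hPQ]; simp
    obtain ⟨g1, g2, g3⟩ := ih (Pb ++ [.cup l.length]) us1 hPQ' hus h1'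
    have hev := pos_even hQ
    simp only [List.length_append, List.length_cons] at hev
    obtain ⟨n, hn, hw⟩ := pos_wf hQ
    simp only [List.length_append, List.length_cons] at hn
    refine ⟨.cup g1, ?_, ?_⟩
    · by_cases hl : l = []
      · subst hl
        simp only [List.nil_append, List.head?_cons, Option.some.injEq] at g2 ⊢
        obtain ⟨y, r', rfl⟩ : ∃ y r', r = y :: r' := by
          cases r with
          | nil => simp at hev
          | cons y r' => exact ⟨y, r', rfl⟩
        have hPQ0 : P = (Pb ++ [.cup 0]) ++ Q := hPQ'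
        have h10 : AngG ([x] ++ Real.pi :: b :: y :: r') (Pb ++ [.cup 0]) [0, 0] us1 := h1'
        have hQ0 : AngG [0, 0] Q ([x] ++ Real.pi :: b :: y :: r') us2 := hQ
        have hb : b = 0 := by
          have hb := bw (Pb := Pb ++ [.cup 0]) (Q := Q) a (by rw [← hPQ0]; exact hc)
            (by rw [← hPQ0]; exact hU) (by rw [← hus]; exact hF) hQ0 h10
          have hwf : wfP 1 (Pb ++ (.cup 0 :: .box 1 a :: Q)) 1 := by
            have := pos_wf_insert (Pb := Pb ++ [.cup 0]) (Q := Q) (m := 1) (k := 1) a
              (by rw [← hPQ0]; exact hP) hw (by simp at hn; omega)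
            simpa using this
          obtain ⟨d0, d1, θ1, θ2, e', c', e2, u1, u2, u3⟩ := pos_uni hwf
          obtain ⟨l1, r1, a1, m1, e3, k1, k2, k3, k4⟩ := pair_cup_inv u3
          have hl1 : l1 = [] := List.length_eq_zero_iff.mp k1
          subst hl1
          obtain ⟨l2, r2, q, θ3, k5, k6, k7, k8⟩ := pair_box_inv k4
          obtain ⟨w, rfl⟩ := List.length_eq_one_iff.mp k5
          simp only [List.nil_append, List.cons_append, List.cons.injEq] at k6
          have hqB : q.B = d0 := by
            have := (pot_edge u3).1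
            rw [k2] at this
            simp only [List.nil_append, List.head?_cons, Option.some.injEq] at this
            rw [← k6.2.2.1, this]
          subst k7
          exact ((hb.2 d0 d1 θ1 θ3 q e' (by simpa using u1) (by rw [u2, pos_len h1])).1 (Or.inl hqB))
        rw [g2, hb, add_zero]
      · exact pos_head_append hl g2
    · by_cases hr : r = []
      · subst hr
        obtain ⟨l', y, rfl⟩ := pos_concat (l := l) (by
          rintro rfl
          simp at hev)
        have hb0 : b = 0 := by simpa using g3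
        have hx : x = 0 := by
          have hb := bw (Pb := Pb ++ [.cup (l' ++ [y]).length]) (Q := Q) a
            (by rw [← hPQ']; exact hc) (by rw [← hPQ']; exact hU) (l := l') (x := y) (z := x)
            (y := Real.pi) (r := [b]) (us1 := us1) (us2 := us2) (by rw [← hus]; exact hF)
            (by simpa using hQ) (by simpa using h1')
          have hwf : wfP 1 (Pb ++ (.cup (l' ++ [y]).length :: .box l'.length a :: Q)) 1 := by
            have := pos_wf_insert (Pb := Pb ++ [.cup (l' ++ [y]).length]) (Q := Q) (m := 1)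
              (k := l'.length) a (by rw [← hPQ']; exact hP) hw (by
                simp only [List.length_append, List.length_cons, List.length_nil] at hn; omega)
            simpa using this
          obtain ⟨d0, d1, θ1, θ2, e', c', e2, u1, u2, u3⟩ := pos_uni hwf
          obtain ⟨l1, r1, a1, m1, e3, k1, k2, k3, k4⟩ := pair_cup_inv u3
          obtain ⟨n1, hn1, hw1⟩ := pot_wf k4
          have hQ2 : wfP n1 (.box l'.length a :: Q) 1 := hw1
          have hn2 : n1 = n := pair_wfP_inj hQ2.2 hw
          simp only [List.length_append, List.length_cons, List.length_nil] at hn1 k1 hn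
          have hr1 : r1 = [] := by
            apply List.length_eq_zero_iff.mp
            omega
          subst hr1
          obtain ⟨l1', w, rfl⟩ := pos_concat (l := l1) (by
            rintro rfl
            simp at k1)
          obtain ⟨l2, r2, q, θ3, k5, k6, k7, k8⟩ := pair_box_inv k4
          simp only [List.length_append, List.length_cons, List.length_nil] at k1
          rw [List.append_assoc] at k6
          obtain ⟨-, k9⟩ := List.append_inj k6 (by omega)
          simp only [List.cons_append, List.nil_append, List.cons.injEq] at k9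
          have hqB : q.B = d1 := by
            have := (pot_edge u3).2
            rw [k2] at this
            rw [← k9.2.1]
            simpa using this
          subst k7
          exact ((hb.2 d0 d1 θ1 θ3 q e' (by simpa using u1) (by rw [u2, pos_len h1])).1 (Or.inr hqB))
        rw [hx, hb0]
        simp
      · have : l ++ (x + b) :: r = (l ++ [x + b]) ++ r := by simp
        rw [this]
        have h3 : l ++ x :: Real.pi :: b :: r = (l ++ [x, Real.pi, b]) ++ r := by simp
        rw [h3] at g3
        exact pos_last_append hr g3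
  | @cap Q l r x y z us2 hQ hab ih =>
    intro Pb us1 hPQ hus h1
    have h1' : AngG (l ++ x :: r) (Pb ++ [.cap l.length]) [0, 0] (us1 ++ []) :=
      angG_append (.cap .nil hab) h1
    rw [List.append_nil] at h1'
    have hPQ' : P = (Pb ++ [.cap l.length]) ++ Q := by rw [hPQ]; simp
    obtain ⟨g1, g2, g3⟩ := ih (Pb ++ [.cap l.length]) us1 hPQ' hus h1'
    have hev := pos_even hQ
    simp only [List.length_append, List.length_cons] at hev
    have hQ' : AngG [0, 0] (.cap l.length :: Q) (l ++ y :: 0 :: z :: r) us2 := .cap hQ hab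
    obtain ⟨n, hn, hw⟩ := pos_wf hQ'
    simp only [List.length_append, List.length_cons] at hn
    -- the left part
    have hy : y ≤ Real.pi ∧ (r = [] → y = Real.pi) ∨ l = [] := by
      by_cases hl : l = []
      · exact Or.inr hl
      left
      obtain ⟨l', w, rfl⟩ := pos_concat hl
      have hb := bw (Pb := Pb) (Q := .cap (l' ++ [w]).length :: Q) a (by rw [← hPQ]; exact hc)
        (by rw [← hPQ]; exact hU) (l := l') (x := w) (z := y) (y := 0) (r := z :: r)
        (us1 := us1) (us2 := us2) (by rw [← hus]; exact hF) (by simpa using hQ') (by simpa using h1)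
      refine ⟨hb.1.2, ?_⟩
      rintro rfl
      have hwf : wfP 1 (Pb ++ (.box l'.length a :: .cap (l' ++ [w]).length :: Q)) 1 :=
        pos_wf_insert a (by rw [← hPQ]; exact hP) hw (by
          simp only [List.length_append, List.length_cons, List.length_nil] at hn; omega)
      obtain ⟨d0, d1, θ1, θ2, e', c', e2, u1, u2, u3⟩ := pos_uni hwf
      obtain ⟨l2, r2, q, θ3, k5, k6, k7, k8⟩ := pair_box_inv u3
      obtain ⟨l1, r1, a1, m1, e3, k1, k2, k3, k4⟩ := pair_cap_inv k8
      obtain ⟨n1, hn1, hw1⟩ := pot_wf k8
      have hn2 : n1 = n := pair_wfP_inj hw1 hw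
      rw [k2] at hn1
      simp only [List.length_append, List.length_cons, List.length_nil] at hn1 k1 hn
      have hr1 : r1 = [] := by
        apply List.length_eq_zero_iff.mp
        omega
      subst hr1
      obtain ⟨l1', w', rfl⟩ := pos_concat (l := l1) (by
        rintro rfl
        simp at k1)
      simp only [List.length_append, List.length_cons, List.length_nil] at k1
      rw [List.append_assoc] at k2
      obtain ⟨-, k9⟩ := List.append_inj k2 (by omega)
      simp only [List.cons_append, List.nil_append, List.cons.injEq] at k9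
      have hqT : q.T = d1 := by
        have := (pot_edge k4).2
        rw [k9.2.1]
        simpa using this
      subst k7
      exact ((hb.2 d0 d1 θ1 θ3 q e' u1 (by rw [u2, pos_len h1])).2 (Or.inr hqT))
    -- the right part
    have hz : z ≤ Real.pi ∧ (l = [] → z = Real.pi) ∨ r = [] := by
      by_cases hr : r = []
      · exact Or.inr hr
      left
      obtain ⟨w, r', rfl⟩ : ∃ w r', r = w :: r' := by
        cases r with
        | nil => exact absurd rfl hr
        | cons w r' => exact ⟨w, r', rfl⟩
      have hb := bw (Pb := Pb) (Q := .cap l.length :: Q) a (by rw [← hPQ]; exact hc)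
        (by rw [← hPQ]; exact hU) (l := l ++ [y]) (x := 0) (z := z) (y := w) (r := r')
        (us1 := us1) (us2 := us2) (by rw [← hus]; exact hF) (by simpa using hQ') (by simpa using h1)
      refine ⟨hb.1.2, ?_⟩
      rintro rfl
      have hwf : wfP 1 (Pb ++ (.box ([] ++ [y]).length a :: .cap ([] : List ℝ).length :: Q)) 1 :=
        pos_wf_insert a (by rw [← hPQ]; exact hP) hw (by
          simp only [List.length_append, List.length_cons, List.length_nil] at hn ⊢; omega)
      obtain ⟨d0, d1, θ1, θ2, e', c', e2, u1, u2, u3⟩ := pos_uni hwf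
      obtain ⟨l2, r2, q, θ3, k5, k6, k7, k8⟩ := pair_box_inv u3
      obtain ⟨l1, r1, a1, m1, e3, k1, k2, k3, k4⟩ := pair_cap_inv k8
      have hl1 : l1 = [] := List.length_eq_zero_iff.mp k1
      subst hl1
      obtain ⟨w', rfl⟩ := List.length_eq_one_iff.mp k5
      simp only [List.nil_append, List.cons_append, List.cons.injEq] at k2
      have hqT : q.T = d0 := by
        have := (pot_edge k4).1
        simp only [List.nil_append, List.head?_cons, Option.some.injEq] at this
        rw [k2.2.2.1, this]
      subst k7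
      exact ((hb.2 d0 d1 θ1 θ3 q e' u1 (by rw [u2, pos_len h1])).2 (Or.inl hqT))
    have hpi := Real.pi_pos
    have hfin : x ≤ y ∧ x ≤ z ∧ (l = [] → y = 0) ∧ (r = [] → z = 0) := by
      by_cases hl : l = []
      · have hr : r ≠ [] := by
          rintro rfl
          subst hl
          simp at hev
        have hx0 : x = 0 := by
          subst hl
          simpa using g2
        have hz' := hz.resolve_right hr
        have h4 := hz'.2 hl
        refine ⟨?_, ?_, fun _ => by linarith, fun h => absurd h hr⟩ <;> linarith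
      · have hy' := hy.resolve_right hl
        by_cases hr : r = []
        · have hx0 : x = 0 := by
            subst hr
            simpa using g3
          have h4 := hy'.2 hr
          refine ⟨?_, ?_, fun h => absurd h hl, fun _ => by linarith⟩ <;> linarith
        · have hz' := hz.resolve_right hr
          refine ⟨?_, ?_, fun h => absurd h hl, fun h => absurd h hr⟩ <;> linarith [hz'.1, hy'.1]
    refine ⟨.cap g1 hfin.1 hfin.2.1 hab, ?_, ?_⟩
    · by_cases hl : l = []
      · rw [hfin.2.2.1 hl]
        subst hl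
        simp
      · exact pos_head_append hl g2
    · by_cases hr : r = []
      · rw [hfin.2.2.2 hr]
        subst hr
        simp
      · have h3 : l ++ y :: 0 :: z :: r = (l ++ [y, 0, z]) ++ r := by simp
        rw [h3]
        have h4 : l ++ x :: r = (l ++ [x]) ++ r := by simp
        rw [h4] at g3
        exact pos_last_append hr g3
  | @box Q l r x y lab u us2 hQ ih =>
    intro Pb us1 hPQ hus h1
    have h1' : AngG (l ++ x :: (Real.pi - u.uT) :: y :: r) (Pb ++ [.box l.length lab]) [0, 0]
        (us1 ++ [u]) := angG_append (.box .nil) h1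
    have hPQ' : P = (Pb ++ [.box l.length lab]) ++ Q := by rw [hPQ]; simp
    have hus' : us = (us1 ++ [u]) ++ us2 := by rw [hus]; simp
    obtain ⟨g1, g2, g3⟩ := ih (Pb ++ [.box l.length lab]) (us1 ++ [u]) hPQ' hus' h1'
    have hQ' : AngG [0, 0] (.box l.length lab :: Q)
      (l ++ (x + u.uL) :: u.uB :: (y + u.uR) :: r) (u :: us2) := .box hQ
    obtain ⟨n, hn, hw⟩ := pos_wf hQ'
    have hp := hU.pot
    rw [hPQ] at hp
    obtain ⟨c', θ1, θ2, e2, t1, t2, t3⟩ := pos_pot_split hp
    obtain ⟨l2, r2, q, θ3, k5, k6, k7, k8⟩ := pair_box_inv t3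
    subst k7
    have hF' : FS (θ1 ++ q :: θ3) (All c0 c1 θ e) (us1 ++ u :: us2) := by
      rw [← t1, ← hus]
      exact hF
    have hlen : θ1.length = us1.length := by rw [t2, pos_len h1]
    have hc0 : c0 ∉ All c0 c1 θ e := by simp [All]
    have hc1 : c1 ∉ All c0 c1 θ e := by simp [All]
    refine ⟨.box g1 (hok u (by rw [hus]; simp)), ?_, ?_⟩
    · by_cases hl : l = []
      · subst hl
        have hl2 : l2 = [] := List.length_eq_zero_iff.mp k5
        subst hl2
        have hqL : q.L = c0 := by
          have := (pot_edge t3).1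
          rw [k6] at this
          simpa using this
        have h4 := (pos_outer hF' hlen hc0).1 hqL
        simp only [List.nil_append, List.head?_cons, Option.some.injEq] at g2 ⊢
        rw [g2, h4, add_zero]
      · exact pos_head_append hl g2
    · by_cases hr : r = []
      · subst hr
        obtain ⟨n1, hn1, hw1⟩ := pot_wf t3
        have hn2 : n1 = n := pair_wfP_inj hw1 hw
        rw [k6] at hn1
        simp only [List.length_append, List.length_cons, List.length_nil] at hn1 hn
        have hr2 : r2 = [] := by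
          apply List.length_eq_zero_iff.mp
          omega
        subst hr2
        have hqR : q.R = c1 := by
          have := (pot_edge t3).2
          rw [k6] at this
          simpa using this
        have h4 := (pos_outer hF' hlen hc1).2 hqR
        have h5 : y = 0 := by simpa using g3
        rw [h5, h4]
        simp
      · have h3 : l ++ (x + u.uL) :: u.uB :: (y + u.uR) :: r =
            (l ++ [x + u.uL, u.uB, y + u.uR]) ++ r := by simp
        rw [h3]
        have h4 : l ++ x :: (Real.pi - u.uT) :: y :: r =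
            (l ++ [x, Real.pi - u.uT, y]) ++ r := by simp
        rw [h4] at g3
        exact pos_last_append hr g3

end Pool.Agent.Helper77.CR
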